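import Pool.Agent.H.MP_bd9785_lc.A

open Pool.Agent.H.MP_bd9785_lc

namespace Pool.Agent.Results.MP_bd9785_lc.Main

theorem result : ∃ B : Set ((ℕ → ℕ) × Inf), MeasurableSet B ∧
    (∀ x, FinCol {y | (x, y) ∈ B}) ∧
    ¬ ∃ g : (ℕ → ℕ) → Inf, Measurable g ∧ ∀ x, (x, g x) ∉ B :=
  main

end Pool.Agent.Results.MP_bd9785_lc.Main
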